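import Pool.Agent.H88.RO.Strings
import Pool.Agent.H88.RO.Arith

set_option autoImplicit false

/-!
# Functions computable without oracle

A function of the length that is computable in polynomial time relative to the empty oracle is
computable relative to every oracle, and on trees.
-/

namespace Pool.Agent.H7.EW

open Pool.Agent.H88.RO Pool.Agent.H88.RO.Tr

/-- the program in which every query is answered `false` -/
def noq : Prog → Prog
  | .id => .id
  | .nil => .nil
  | .fst => .fst
  | .snd => .snd
  | .query => .nil
  | .pair f g => .pair (noq f) (noq g)
  | .comp f g => .comp (noq f) (noq g)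
  | .cond f g => .cond (noq f) (noq g)
  | .loop f => .loop (noq f)

theorem eval_noq (O : List Bool → Bool) {c : Prog} {v w : Tr} {t : ℕ}
    (h : Eval (fun _ => false) c v w t) : Eval O (noq c) v w t := by
  induction h with
  | id v => exact Eval.id v
  | nil v => exact Eval.nil v
  | fst v => exact Eval.fst v
  | snd v => exact Eval.snd v
  | query v => exact Eval.nil v
  | pair hf hg ihf ihg => exact Eval.pair ihf ihg
  | comp hg hf ihg ihf => exact Eval.comp ihg ihf
  | condNil h hf ihf => exact Eval.condNil h ihf
  | condNode h hf ihf => exact Eval.condNode h ihf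
  | loopDone h => exact Eval.loopDone h
  | loopStep h hf hl ihf ihl => exact Eval.loopStep h ihf ihl

theorem len_enc' (x : List Bool) : len (enc x) = x.length := by
  induction x with
  | nil => rfl
  | cons b x ih => simp [enc, len, ih]

theorem enc_repl (n : ℕ) : enc (List.replicate n false) = num n := by
  induction n with
  | zero => rfl
  | succ n ih => rw [List.replicate_succ, enc, ih]; rfl

/-- **Length functions computable in polynomial time (in unary) without oracle are computable on
trees relative to every oracle.** -/
theorem exists_lT {l : ℕ → ℕ}
    (hc : PolyTimeFun (fun _ => false) (fun x => List.replicate (l x.length) true)) :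
    ∃ lT : Tr → Tr, (∀ v, lT v = num (l (len v))) ∧
      ∀ (O : List Bool → Bool) (F : Tr → Tr), FP O F → FP O (fun v => lT (F v)) := by
  refine ⟨fun v => num (l (len v)), fun _ => rfl, fun O F hF => ?_⟩
  obtain ⟨c, q, hc⟩ := hc
  have key : FP O (fun v => enc (List.replicate (l (len v)) true)) := by
    obtain ⟨c', q', hc'⟩ := FP.ulen' (O := O) FP.id'
    refine ⟨Prog.comp (noq c) c', q' + q + Polynomial.X + 1, fun v => ?_⟩
    obtain ⟨t1, ht1, he1⟩ := hc' v
    obtain ⟨t2, ht2, he2⟩ := hc (List.replicate (len v) false)
    beta_reduce at he1 he2
    rw [ulen_eq, ← enc_repl] at he1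
    rw [List.length_replicate] at ht2 he2
    refine ⟨_, ?_, Eval.comp he1 (eval_noq O he2)⟩
    simp only [Polynomial.eval_add, Polynomial.eval_X, Polynomial.eval_one]
    have h1 := poly_mono q (show len v ≤ size v by have := len_le_size v; omega)
    omega
  have h2 := FP.ulen' (FP.comp' (F := fun v => enc (List.replicate (l (len v)) true)) key hF)
  have e : (fun v => num (l (len (F v)))) =
      fun v => ulen (enc (List.replicate (l (len (F v))) true)) := by
    funext v
    rw [ulen_eq, len_enc', List.length_replicate]
  rw [e]
  exact h2

end Pool.Agent.H7.EW
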